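import Mathlib

set_option autoImplicit false

/-!
# Conditional averages on a finite product space and the copy step

`av f` is the average of `f : (I → V) → ℝ` over all assignments, `cond S f` is the conditional
average given the coordinates in `S`, and `ent S f` is the relative entropy (with respect to the
uniform distribution) of the law of the coordinates in `S` under the density `f`.
The copy step adds to a density a new coordinate `i` that is a conditionally independent copy of the
coordinate `a` given the coordinates in `P`.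
-/

namespace Pool.Agent.R81.Sid

open Finset

variable {I V : Type} [Fintype I] [DecidableEq I] [Fintype V] [DecidableEq V]

/-- average over all assignments -/
noncomputable def av (f : (I → V) → ℝ) : ℝ := (∑ ω, f ω) / (Fintype.card (I → V) : ℝ)

/-- conditional average given the coordinates in `S` -/
noncomputable def cond (S : Finset I) (f : (I → V) → ℝ) (ω : I → V) : ℝ :=
  av (fun ω' => f (S.piecewise ω ω'))

/-- `g` depends only on the coordinates in `S` -/
def Dep (S : Finset I) (g : (I → V) → ℝ) : Prop :=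
  ∀ ω ω', (∀ i ∈ S, ω i = ω' i) → g ω = g ω'

/-- relative entropy of the coordinates in `S` under the density `f` -/
noncomputable def ent (S : Finset I) (f : (I → V) → ℝ) : ℝ :=
  av (fun ω => cond S f ω * Real.log (cond S f ω))

omit [DecidableEq V] in
theorem av_add (f g : (I → V) → ℝ) : av (fun ω => f ω + g ω) = av f + av g := by
  unfold av
  rw [sum_add_distrib, add_div]

omit [DecidableEq V] in
theorem av_sub (f g : (I → V) → ℝ) : av (fun ω => f ω - g ω) = av f - av g := by
  unfold av
  rw [sum_sub_distrib, sub_div]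

omit [DecidableEq V] in
theorem av_mul_left (c : ℝ) (f : (I → V) → ℝ) : av (fun ω => c * f ω) = c * av f := by
  unfold av
  rw [← mul_sum, mul_div_assoc]

omit [DecidableEq V] in
theorem av_nonneg {f : (I → V) → ℝ} (h : ∀ ω, 0 ≤ f ω) : 0 ≤ av f := by
  unfold av
  exact div_nonneg (sum_nonneg fun ω _ => h ω) (Nat.cast_nonneg _)

omit [DecidableEq V] in
theorem av_mono {f g : (I → V) → ℝ} (h : ∀ ω, f ω ≤ g ω) : av f ≤ av g := by
  unfold av
  exact div_le_div_of_nonneg_right (sum_le_sum fun ω _ => h ω) (Nat.cast_nonneg _)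

omit [DecidableEq V] in
theorem card_pos' [Nonempty V] : (0 : ℝ) < (Fintype.card (I → V) : ℝ) := by
  exact_mod_cast Fintype.card_pos

omit [DecidableEq V] in
theorem av_const [Nonempty V] (c : ℝ) : av (fun _ : I → V => c) = c := by
  unfold av
  rw [sum_const, card_univ, nsmul_eq_mul]
  field_simp

omit [DecidableEq V] in
theorem av_eq_zero [Nonempty V] {f : (I → V) → ℝ} (h : ∀ ω, 0 ≤ f ω) (h0 : av f = 0) (ω : I → V) :
    f ω = 0 := by
  unfold av at h0
  rw [div_eq_zero_iff] at h0
  rcases h0 with h0 | h0
  · exact (sum_eq_zero_iff_of_nonneg fun ω _ => h ω).1 h0 ω (mem_univ _)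
  · exact absurd h0 (ne_of_gt card_pos')

omit [DecidableEq V] in
/-- resampling -/
theorem av_resample [Nonempty V] (T : Finset I) (F : (I → V) → ℝ) :
    av (fun ω => av (fun ω' => F (T.piecewise ω ω'))) = av F := by
  have key : ∑ p : (I → V) × (I → V), F (T.piecewise p.1 p.2) =
      ∑ p : (I → V) × (I → V), F p.1 := by
    refine Fintype.sum_equiv
      (Function.Involutive.toPerm
        (fun p : (I → V) × (I → V) => (T.piecewise p.1 p.2, T.piecewise p.2 p.1)) ?_) _ _ ?_
    · intro p
      ext j
      · by_cases hj : j ∈ T <;> simp [Finset.piecewise, hj]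
      · by_cases hj : j ∈ T <;> simp [Finset.piecewise, hj]
    · intro p
      rfl
  rw [Fintype.sum_prod_type, Fintype.sum_prod_type] at key
  unfold av
  rw [← sum_div, key]
  simp only [sum_const, card_univ, nsmul_eq_mul]
  rw [← mul_sum, div_div, mul_div_mul_left _ _ (ne_of_gt (card_pos' (I := I) (V := V)))]

omit [DecidableEq V] in
theorem av_cond [Nonempty V] (S : Finset I) (f : (I → V) → ℝ) : av (cond S f) = av f :=
  av_resample S f

omit [DecidableEq V] in
theorem cond_cond [Nonempty V] (S T : Finset I) (f : (I → V) → ℝ) :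
    cond S (cond T f) = cond (S ∩ T) f := by
  funext ω
  unfold cond
  rw [← av_resample T (fun η => f ((S ∩ T).piecewise ω η))]
  congr 1
  funext ω'
  congr 1
  funext ω''
  congr 1
  funext j
  by_cases hT : j ∈ T <;> by_cases hS : j ∈ S <;> simp [Finset.piecewise, hT, hS]

omit [DecidableEq V] in
theorem cond_nonneg (S : Finset I) {f : (I → V) → ℝ} (h : ∀ ω, 0 ≤ f ω) (ω : I → V) :
    0 ≤ cond S f ω := av_nonneg fun _ => h _

omit [DecidableEq V] in
theorem cond_dep (S : Finset I) (f : (I → V) → ℝ) : Dep S (cond S f) := by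
  intro ω ω' h
  unfold cond
  congr 1
  funext η
  congr 1
  funext j
  by_cases hj : j ∈ S <;> simp [Finset.piecewise, hj, h]

omit [Fintype I] [DecidableEq I] [Fintype V] [DecidableEq V] in
theorem Dep.mono {S T : Finset I} (h : S ⊆ T) {g : (I → V) → ℝ} (hg : Dep S g) : Dep T g :=
  fun ω ω' hh => hg ω ω' fun i hi => hh i (h hi)

omit [DecidableEq V] in
theorem cond_mul (S : Finset I) {g : (I → V) → ℝ} (hg : Dep S g) (f : (I → V) → ℝ) :
    cond S (fun ω => g ω * f ω) = fun ω => g ω * cond S f ω := by
  funext ω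
  unfold cond
  rw [← av_mul_left]
  congr 1
  funext η
  show g (S.piecewise ω η) * f (S.piecewise ω η) = g ω * f (S.piecewise ω η)
  rw [hg (S.piecewise ω η) ω (fun i hi => by simp [Finset.piecewise, hi])]

omit [DecidableEq V] in
theorem cond_self [Nonempty V] {S : Finset I} {g : (I → V) → ℝ} (hg : Dep S g) : cond S g = g := by
  have := cond_mul S hg (fun _ => 1)
  simp only [mul_one] at this
  rw [this]
  funext ω
  unfold cond
  rw [av_const, mul_one]

omit [DecidableEq V] in
theorem cond_of_dep [Nonempty V] (S : Finset I) {T : Finset I} {g : (I → V) → ℝ} (hg : Dep T g) :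
    cond S g = cond (S ∩ T) g := by
  rw [← cond_cond, cond_self hg]

omit [DecidableEq V] in
theorem cond_empty (f : (I → V) → ℝ) (ω : I → V) : cond ∅ f ω = av f := by
  unfold cond
  simp

omit [DecidableEq V] in
/-- Jensen's inequality for `x log x` -/
theorem jensen [Nonempty V] {f : (I → V) → ℝ} (h : ∀ ω, 0 ≤ f ω) :
    av f * Real.log (av f) ≤ av (fun ω => f ω * Real.log (f ω)) := by
  have hc := card_pos' (I := I) (V := V)
  have := Real.convexOn_mul_log.map_sum_le (t := (univ : Finset (I → V)))
    (w := fun _ => 1 / (Fintype.card (I → V) : ℝ)) (p := f) (fun _ _ => by positivity)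
    (by rw [sum_const, card_univ, nsmul_eq_mul]; field_simp) (fun ω _ => h ω)
  simp only [smul_eq_mul, ← mul_sum] at this
  unfold av
  rw [div_eq_mul_one_div, mul_comm (∑ ω, f ω), div_eq_mul_one_div (∑ ω, f ω * Real.log (f ω)),
    mul_comm (∑ ω, f ω * Real.log (f ω))]
  exact this

omit [DecidableEq V] in
theorem ent_mono [Nonempty V] {S T : Finset I} (hST : S ⊆ T) {f : (I → V) → ℝ}
    (h : ∀ ω, 0 ≤ f ω) : ent S f ≤ ent T f := by
  unfold ent
  rw [← av_cond S (fun ω => cond T f ω * Real.log (cond T f ω))]
  apply av_mono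
  intro ω
  have h1 : cond S f ω = av (fun ω' => cond T f (S.piecewise ω ω')) := by
    have h2 := cond_cond S T f
    rw [Finset.inter_eq_left.2 hST] at h2
    rw [← h2]
    rfl
  rw [h1]
  exact jensen (f := fun ω' => cond T f (S.piecewise ω ω')) (fun ω' => cond_nonneg T h _)

omit [DecidableEq V] in
theorem ent_nonneg [Nonempty V] (S : Finset I) {f : (I → V) → ℝ}
    (h : ∀ ω, 0 ≤ f ω) (h1 : av f = 1) : 0 ≤ ent S f := by
  have h2 := ent_mono (empty_subset S) h
  have h3 : ent ∅ f = 0 := by
    unfold ent
    have : (fun ω => cond ∅ f ω * Real.log (cond ∅ f ω)) = fun _ : I → V => (0 : ℝ) := by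
      funext ω
      rw [cond_empty, h1, Real.log_one, mul_zero]
    rw [this, av_const]
  linarith

omit [DecidableEq V] in
theorem av_swap (a i : I) (F : (I → V) → ℝ) :
    av (fun ω => F (ω ∘ Equiv.swap a i)) = av F := by
  unfold av
  congr 1
  exact Fintype.sum_equiv (Equiv.arrowCongr (Equiv.swap a i) (Equiv.refl V)) _ _ (fun ω => by
    congr 1)

/-- the factor of the copy step -/
noncomputable def ker (P : Finset I) (a i : I) (f : (I → V) → ℝ) (ω : I → V) : ℝ :=
  cond (insert a P) f (ω ∘ Equiv.swap a i) / cond P f ω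

/-- the copy step: the coordinate `i` becomes a copy of the coordinate `a` given those in `P` -/
noncomputable def copy (P : Finset I) (a i : I) (f : (I → V) → ℝ) (ω : I → V) : ℝ :=
  f ω * ker P a i f ω

section copy

variable [Nonempty V] {P : Finset I} {a i : I} {f : (I → V) → ℝ}

omit [DecidableEq V] in
theorem cond_eq_zero (h : ∀ ω, 0 ≤ f ω) {S T : Finset I} (hST : S ⊆ T) {ω : I → V}
    (h0 : cond S f ω = 0) : cond T f ω = 0 := by
  have h2 := cond_cond S T f
  rw [Finset.inter_eq_left.2 hST] at h2
  rw [← h2] at h0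
  have h3 := av_eq_zero (f := fun ω' => cond T f (S.piecewise ω ω'))
    (fun ω' => cond_nonneg T h _) h0 ω
  have h4 : S.piecewise ω ω = ω := by
    funext j
    by_cases hj : j ∈ S <;> simp [Finset.piecewise, hj]
  simp only [h4] at h3
  exact h3

omit [Nonempty V] [DecidableEq V] in
theorem copy_nonneg (h : ∀ ω, 0 ≤ f ω) (ω : I → V) : 0 ≤ copy P a i f ω :=
  mul_nonneg (h ω) (div_nonneg (cond_nonneg _ h _) (cond_nonneg _ h _))

omit [Nonempty V] [DecidableEq V] [Fintype I] [Fintype V] in
theorem swap_agree (ha : a ∉ P) (hi : i ∉ P) (ω : I → V) (j : I) (hj : j ∈ P) :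
    (ω ∘ Equiv.swap a i) j = ω j := by
  have h1 : j ≠ a := fun h => ha (h ▸ hj)
  have h2 : j ≠ i := fun h => hi (h ▸ hj)
  simp [Equiv.swap_apply_of_ne_of_ne h1 h2]

omit [DecidableEq V] in
theorem cond_swap_zero (h : ∀ ω, 0 ≤ f ω) (ha : a ∉ P) (hi : i ∉ P) {ω : I → V}
    (h0 : cond P f ω = 0) : cond (insert a P) f (ω ∘ Equiv.swap a i) = 0 := by
  apply cond_eq_zero h (subset_insert a P)
  rw [← h0]
  exact cond_dep P f _ _ fun j hj => swap_agree ha hi ω j hj

omit [DecidableEq V] in
/-- average of the new coordinate -/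
theorem cond_G (hai : a ≠ i) (ha : a ∉ P) (hi : i ∉ P) (ω : I → V) :
    cond (univ.erase i) (fun ω => cond (insert a P) f (ω ∘ Equiv.swap a i)) ω = cond P f ω := by
  have h1 : cond P (cond (insert a P) f) = cond P f := by
    rw [cond_cond, Finset.inter_eq_left.2 (subset_insert a P)]
  rw [← h1]
  unfold cond
  conv_rhs => rw [← av_swap a i]
  congr 1
  funext ω'
  apply cond_dep (insert a P) f
  intro j hj
  rw [mem_insert] at hj
  rcases hj with rfl | hj
  · simp [Finset.piecewise, ha]
  · rw [swap_agree ha hi _ j hj]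
    have h2 : j ≠ i := fun h => hi (h ▸ hj)
    simp [Finset.piecewise, hj, h2]

omit [Nonempty V] [DecidableEq V] in
theorem ker_dep (ha : a ∉ P) (hi : i ∉ P) : Dep (insert i P) (ker P a i f) := by
  intro ω ω' h
  unfold ker
  congr 1
  · apply cond_dep (insert a P) f
    intro j hj
    rw [mem_insert] at hj
    rcases hj with rfl | hj
    · simp [h i (mem_insert_self i P)]
    · rw [swap_agree ha hi _ j hj, swap_agree ha hi _ j hj]
      exact h j (mem_insert_of_mem hj)
  · exact cond_dep P f _ _ fun j hj => h j (mem_insert_of_mem hj)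

omit [DecidableEq V] in
theorem cond_ker (hai : a ≠ i) (ha : a ∉ P) (hi : i ∉ P) (ω : I → V) (h0 : cond P f ω ≠ 0) :
    cond (univ.erase i) (ker P a i f) ω = 1 := by
  have h1 : ker P a i f = fun ω => (cond P f ω)⁻¹ * cond (insert a P) f (ω ∘ Equiv.swap a i) := by
    funext ω
    unfold ker
    rw [div_eq_mul_inv, mul_comm]
  have h2 : Dep (univ.erase i) (fun ω => (cond P f ω)⁻¹) := by
    intro ω ω' h
    simp only
    rw [cond_dep P f ω ω' fun j hj => h j (by
      rw [mem_erase]
      exact ⟨fun hh => hi (hh ▸ hj), mem_univ _⟩)]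
  rw [h1, cond_mul _ h2]
  simp only
  rw [cond_G hai ha hi, inv_mul_cancel₀ h0]

omit [DecidableEq V] in
/-- the law of the old coordinates does not change -/
theorem cond_copy_old (h : ∀ ω, 0 ≤ f ω) (hf : Dep (univ.erase i) f) (hai : a ≠ i) (ha : a ∉ P)
    (hi : i ∉ P) {S : Finset I} (hS : i ∉ S) : cond S (copy P a i f) = cond S f := by
  have h1 : cond (univ.erase i) (copy P a i f) = f := by
    have h3 : copy P a i f = fun ω => f ω * ker P a i f ω := rfl
    rw [h3, cond_mul _ hf]
    funext ω
    by_cases h0 : cond P f ω = 0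
    · have : f ω = 0 := by
        have := cond_eq_zero h (subset_univ P) h0
        rwa [cond_self (fun ω ω' hh => by rw [show ω = ω' from funext fun j => hh j (mem_univ j)])]
          at this
      rw [this, zero_mul]
    · rw [cond_ker hai ha hi ω h0, mul_one]
  have h2 : S ∩ univ.erase i = S := by
    apply Finset.inter_eq_left.2
    intro j hj
    rw [mem_erase]
    exact ⟨fun hh => hS (hh ▸ hj), mem_univ _⟩
  rw [← h2, ← cond_cond, h1, h2]

omit [DecidableEq V] in
theorem cond_copy_new (hf : Dep (univ.erase i) f) (ha : a ∉ P)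
    (hi : i ∉ P) {S : Finset I} (hS : i ∈ S) (hPS : P ⊆ S) :
    cond S (copy P a i f) = fun ω => ker P a i f ω * cond (S.erase i) f ω := by
  have h1 : copy P a i f = fun ω => ker P a i f ω * f ω := by
    funext ω
    unfold copy
    ring
  have h2 : Dep S (ker P a i f) := (ker_dep ha hi).mono (insert_subset hS hPS)
  rw [h1, cond_mul S h2, cond_of_dep S hf]
  have : S ∩ univ.erase i = S.erase i := by
    ext j
    simp only [mem_inter, mem_erase, mem_univ, and_true]
    tauto
  rw [this]

omit [DecidableEq V] in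
theorem av_copy (h : ∀ ω, 0 ≤ f ω) (hf : Dep (univ.erase i) f) (hai : a ≠ i) (ha : a ∉ P)
    (hi : i ∉ P) : av (copy P a i f) = av f := by
  rw [← av_cond ∅ (copy P a i f), cond_copy_old h hf hai ha hi (notMem_empty i), av_cond]

omit [DecidableEq V] in
theorem ent_copy_old (h : ∀ ω, 0 ≤ f ω) (hf : Dep (univ.erase i) f) (hai : a ≠ i) (ha : a ∉ P)
    (hi : i ∉ P) {S : Finset I} (hS : i ∉ S) : ent S (copy P a i f) = ent S f := by
  unfold ent
  rw [cond_copy_old h hf hai ha hi hS]

omit [DecidableEq V] in
/-- the entropy of the new coordinate -/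
theorem ent_copy_new (h : ∀ ω, 0 ≤ f ω) (hf : Dep (univ.erase i) f) (hai : a ≠ i) (ha : a ∉ P)
    (hi : i ∉ P) {S : Finset I} (hS : i ∈ S) (hPS : P ⊆ S) :
    ent S (copy P a i f) = ent (S.erase i) f + (ent (insert a P) f - ent P f) := by
  have hPS' : P ⊆ S.erase i := fun j hj => mem_erase.2 ⟨fun hh => hi (hh ▸ hj), hPS hj⟩
  set u := cond (S.erase i) f with hu
  set g := cond P f with hg
  set K := ker P a i f with hK
  set G := cond (insert a P) f with hG
  have e1 : (fun ω => cond S (copy P a i f) ω * Real.log (cond S (copy P a i f) ω)) =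
      fun ω => u ω * (K ω * Real.log (K ω)) + (u ω * Real.log (u ω)) * K ω := by
    rw [cond_copy_new hf ha hi hS hPS]
    funext ω
    simp only
    rw [← hu, ← hK]
    by_cases h1 : K ω = 0
    · simp [h1]
    by_cases h2 : u ω = 0
    · simp [h2]
    rw [Real.log_mul h1 h2]
    ring
  have uz : ∀ ω, g ω = 0 → u ω = 0 := fun ω h0 => cond_eq_zero h hPS' h0
  -- second term
  have e2 : av (fun ω => (u ω * Real.log (u ω)) * K ω) = ent (S.erase i) f := by
    have d1 : Dep (univ.erase i) (fun ω => u ω * Real.log (u ω)) := by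
      intro ω ω' hh
      have : u ω = u ω' := cond_dep (S.erase i) f ω ω' fun j hj => hh j (by
        rw [mem_erase] at hj ⊢
        exact ⟨hj.1, mem_univ _⟩)
      simp only
      rw [this]
    rw [← av_cond (univ.erase i), cond_mul _ d1]
    unfold ent
    congr 1
    funext ω
    by_cases h0 : g ω = 0
    · rw [← hu, uz ω h0]
      simp
    · rw [hK, cond_ker hai ha hi ω h0, mul_one]
  -- first term
  have e3 : av (fun ω => u ω * (K ω * Real.log (K ω))) = ent (insert a P) f - ent P f := by
    have d1 : Dep (insert i P) (fun ω => K ω * Real.log (K ω)) := by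
      intro ω ω' hh
      have : K ω = K ω' := ker_dep ha hi ω ω' hh
      simp only
      rw [this]
    have c1 : cond (insert i P) u = g := by
      rw [hu, cond_cond, hg]
      congr 1
      ext j
      simp only [mem_inter, mem_insert, mem_erase]
      constructor
      · rintro ⟨h1 | h1, h2, -⟩
        · exact absurd h1 h2
        · exact h1
      · intro hj
        exact ⟨Or.inr hj, (mem_erase.1 (hPS' hj)).1, (mem_erase.1 (hPS' hj)).2⟩
    have e4 : av (fun ω => u ω * (K ω * Real.log (K ω))) =
        av (fun ω => (K ω * Real.log (K ω)) * g ω) := by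
      have : (fun ω => u ω * (K ω * Real.log (K ω))) = fun ω => (K ω * Real.log (K ω)) * u ω := by
        funext ω
        ring
      rw [this, ← av_cond (insert i P), cond_mul _ d1, c1]
    have gs : ∀ ω : I → V, g (ω ∘ Equiv.swap a i) = g ω := fun ω =>
      cond_dep P f _ _ fun j hj => swap_agree ha hi ω j hj
    have e5 : (fun ω => (K ω * Real.log (K ω)) * g ω) = fun ω =>
        (fun η => G η * Real.log (G η) - Real.log (g η) * G η) (ω ∘ Equiv.swap a i) := by
      funext ω
      simp only
      rw [gs]
      by_cases h0 : g ω = 0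
      · have h1 : G (ω ∘ Equiv.swap a i) = 0 := cond_swap_zero h ha hi h0
        rw [h0, h1]
        simp
      · have hKe : K ω = G (ω ∘ Equiv.swap a i) / g ω := rfl
        rw [hKe]
        by_cases h1 : G (ω ∘ Equiv.swap a i) = 0
        · rw [h1]
          simp
        · rw [Real.log_div h1 h0]
          field_simp
    rw [e4, e5, av_swap a i (fun η => G η * Real.log (G η) - Real.log (g η) * G η), av_sub]
    congr 1
    have d2 : Dep P (fun η => Real.log (g η)) := by
      intro ω ω' hh
      have : g ω = g ω' := cond_dep P f ω ω' hh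
      simp only
      rw [this]
    rw [← av_cond P, cond_mul _ d2]
    have c2 : cond P G = g := by
      rw [hG, cond_cond, Finset.inter_eq_left.2 (subset_insert a P)]
    rw [c2]
    unfold ent
    congr 1
    funext ω
    ring
  unfold ent at e2 e3 ⊢
  rw [e1, av_add, e2, e3]
  ring

omit [Nonempty V] [DecidableEq V] in
theorem copy_dep {T : Finset I} (hf : Dep T f) (ha : a ∉ P) (hi : i ∉ P) (hP : P ⊆ T) :
    Dep (insert i T) (copy P a i f) := by
  intro ω ω' hh
  unfold copy
  rw [hf ω ω' fun j hj => hh j (mem_insert_of_mem hj),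
    ker_dep ha hi ω ω' fun j hj => hh j (by
      rw [mem_insert] at hj ⊢
      rcases hj with hj | hj
      · exact Or.inl hj
      · exact Or.inr (hP hj))]

omit [DecidableEq V] in
/-- support of the copy -/
theorem copy_supp (ha : a ∉ P) (hi : i ∉ P) {ω : I → V}
    (h0 : copy P a i f ω ≠ 0) : f ω ≠ 0 ∧ ∃ η, f η ≠ 0 ∧ (∀ j ∈ P, η j = ω j) ∧ η a = ω i := by
  unfold copy ker at h0
  have h1 := left_ne_zero_of_mul h0
  have h2 := right_ne_zero_of_mul h0
  rw [div_ne_zero_iff] at h2
  refine ⟨h1, ?_⟩
  by_contra hcon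
  push Not at hcon
  apply h2.1
  unfold cond
  have : (fun ω' => f ((insert a P).piecewise (ω ∘ Equiv.swap a i) ω')) =
      fun _ : I → V => (0 : ℝ) := by
    funext ω'
    by_contra h3
    refine hcon _ h3 ?_ ?_
    · intro j hj
      rw [Finset.piecewise_eq_of_mem _ _ _ (mem_insert_of_mem hj), swap_agree ha hi ω j hj]
    · rw [Finset.piecewise_eq_of_mem _ _ _ (mem_insert_self a P)]
      simp
  rw [this, av_const]

end copy

end Pool.Agent.R81.Sid
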