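import Mathlib

set_option autoImplicit false

/-!
# Homomorphism densities and Sidorenko exponents of uniform hypergraphs

A hypergraph with vertex set `V` is given by its finite set of edges `Finset (Finset V)`; it is an
`r`-graph if all its edges have `r` elements.
-/

namespace Pool.Agent.R81.Sid

open Finset

/-- The number of homomorphisms from the hypergraph `F` to the hypergraph `H`: maps from the vertex
set of `F` to the vertex set of `H` which map every edge of `F` onto an edge of `H`. -/
def homCount {W V : Type} [Fintype W] [DecidableEq W] [Fintype V] [DecidableEq V]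
    (F : Finset (Finset W)) (H : Finset (Finset V)) : ℕ :=
  (univ.filter (fun φ : W → V => ∀ e ∈ F, e.image φ ∈ H)).card

/-- The homomorphism density `t_F(H) = hom(F, H) / v(H)^v(F)`. -/
noncomputable def homDensity {W V : Type} [Fintype W] [DecidableEq W] [Fintype V] [DecidableEq V]
    (F : Finset (Finset W)) (H : Finset (Finset V)) : ℝ :=
  (homCount F H : ℝ) / (Fintype.card V : ℝ) ^ Fintype.card W

/-- The `r`-graph with `r` vertices and one edge. -/
def singleEdge (r : ℕ) : Finset (Finset (Fin r)) := {univ}

/-- The Sidorenko exponent of the `r`-graph `F`: the supremum of all `s ≥ 0` for which there is a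
finite `r`-graph `H` with `t_F(H) = t_K(H)^s > 0`, where `K` is the `r`-graph with one edge. It is an
extended real number, so it is `⊤` if these `s` are unbounded. -/
noncomputable def sidorenkoExponent (r : ℕ) {W : Type} [Fintype W] [DecidableEq W]
    (F : Finset (Finset W)) : EReal :=
  sSup {x : EReal | ∃ s : ℝ, x = (s : EReal) ∧ 0 ≤ s ∧ ∃ (n : ℕ) (H : Finset (Finset (Fin n))),
    (∀ e ∈ H, e.card = r) ∧ homDensity F H = homDensity (singleEdge r) H ^ s ∧ 0 < homDensity F H}

/-- The `i`-th edge of the tight cycle: the vertices `i, i + 1, ..., i + r - 1` modulo `r ℓ`. -/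
def tightEdge (r ℓ : ℕ) (i : Fin (r * ℓ)) : Finset (Fin (r * ℓ)) :=
  univ.filter fun j => ∃ k ∈ range r, (j : ℕ) = ((i : ℕ) + k) % (r * ℓ)

/-- The edges of the `r`-uniform tight cycle with `r ℓ` vertices `0, 1, ..., r ℓ - 1`: the sets
`{i, i + 1, ..., i + r - 1}` for all `i`, where vertices are taken modulo `r ℓ`. -/
def tightCycle (r ℓ : ℕ) : Finset (Finset (Fin (r * ℓ))) :=
  univ.image (tightEdge r ℓ)

end Pool.Agent.R81.Sid
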