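import Mathlib
import Pool.Agent.R81.Sid.Main

set_option autoImplicit false

/-!
# Sidorenko exponents: the final bound
-/

namespace Pool.Agent.R81.Sid

open Finset

variable {W : Type} [Fintype W] [DecidableEq W]

theorem nb_card {r : ℕ} (F : Finset (Finset W)) (hF : ∀ e ∈ F, e.card = r) (c : W → Fin r) (Δ : ℕ)
    (hΔ : ∀ w, (F.filter fun e => w ∈ e).card ≤ Δ) (v : W) : (nb F c v).card ≤ r * Δ := by
  have h1 : nb F c v ⊆ (F.filter fun e => v ∈ e).biUnion id := by
    intro u hu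
    unfold nb at hu
    rw [mem_filter] at hu
    obtain ⟨-, -, e, he, hue, hve⟩ := hu
    exact mem_biUnion.2 ⟨e, mem_filter.2 ⟨he, hve⟩, hue⟩
  calc (nb F c v).card ≤ _ := card_le_card h1
    _ ≤ (F.filter fun e => v ∈ e).card * r :=
        card_biUnion_le_card_mul _ _ _ fun e he => (hF e (mem_filter.1 he).1).le
    _ ≤ Δ * r := Nat.mul_le_mul_right _ (hΔ v)
    _ = r * Δ := Nat.mul_comm _ _

theorem beta_ineq {r : ℕ} (F : Finset (Finset W)) (hF : ∀ e ∈ F, e.card = r) (c : W → Fin r) (Δ : ℕ)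
    (hΔ : ∀ w, (F.filter fun e => w ∈ e).card ≤ Δ) (v : W) :
    2 * ∑ u ∈ nb F c v, (2 * (r * Δ : ℕ) + 1 : ℝ) ^ (c u : ℕ) + 1 ≤
      (2 * (r * Δ : ℕ) + 1 : ℝ) ^ (c v : ℕ) := by
  set M : ℝ := ((r * Δ : ℕ) : ℝ) with hM
  have hM0 : 0 ≤ M := Nat.cast_nonneg _
  have hb : (1 : ℝ) ≤ 2 * M + 1 := by linarith
  rcases Nat.eq_zero_or_pos (c v : ℕ) with h0 | h0
  · have : nb F c v = ∅ := by
      unfold nb
      rw [filter_eq_empty_iff]
      rintro u - ⟨hu, -⟩
      have : (c u : ℕ) < (c v : ℕ) := hu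
      omega
    rw [this, h0]
    simp
  · have h1 : ∑ u ∈ nb F c v, (2 * M + 1) ^ (c u : ℕ) ≤ M * (2 * M + 1) ^ ((c v : ℕ) - 1) := by
      calc ∑ u ∈ nb F c v, (2 * M + 1) ^ (c u : ℕ)
          ≤ ∑ u ∈ nb F c v, (2 * M + 1) ^ ((c v : ℕ) - 1) := by
            apply sum_le_sum
            intro u hu
            unfold nb at hu
            rw [mem_filter] at hu
            have h2 : (c u : ℕ) < (c v : ℕ) := hu.2.1
            exact pow_le_pow_right₀ hb (by omega)
        _ = ((nb F c v).card : ℝ) * (2 * M + 1) ^ ((c v : ℕ) - 1) := by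
            rw [sum_const, nsmul_eq_mul]
        _ ≤ M * (2 * M + 1) ^ ((c v : ℕ) - 1) := by
            apply mul_le_mul_of_nonneg_right _ (by positivity)
            rw [hM]
            exact_mod_cast nb_card F hF c Δ hΔ v
    have h2 : (1 : ℝ) ≤ (2 * M + 1) ^ ((c v : ℕ) - 1) := one_le_pow₀ hb
    have h3 : (2 * M + 1) ^ (c v : ℕ) = (2 * M + 1) * (2 * M + 1) ^ ((c v : ℕ) - 1) := by
      rw [← pow_succ']
      congr 1
      omega
    rw [h3]
    nlinarith

theorem singleEdge_lt_one {r : ℕ} (hr : 2 ≤ r) {V : Type} [Fintype V] [DecidableEq V] [Nonempty V]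
    (H : Finset (Finset V)) (hH : ∀ e ∈ H, e.card = r) : homDensity (singleEdge r) H < 1 := by
  unfold homDensity
  rw [div_lt_one (by
    have : (0 : ℝ) < Fintype.card V := by exact_mod_cast Fintype.card_pos
    positivity)]
  have h1 : homCount (singleEdge r) H < Fintype.card (Fin r → V) := by
    unfold homCount
    rw [← card_univ]
    apply card_lt_card
    rw [ssubset_univ_iff]
    intro h
    obtain ⟨x⟩ := ‹Nonempty V›
    have h2 : (fun _ : Fin r => x) ∈ univ.filter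
        (fun φ : Fin r → V => ∀ e ∈ singleEdge r, e.image φ ∈ H) := by
      rw [h]
      exact mem_univ _
    rw [mem_filter] at h2
    have h3 := hH _ (h2.2 univ (by simp [singleEdge]))
    have h4 : (univ : Finset (Fin r)).image (fun _ => x) ⊆ {x} := by
      intro y hy
      rw [mem_image] at hy
      obtain ⟨-, -, rfl⟩ := hy
      exact mem_singleton_self _
    have h5 := card_le_card h4
    rw [h3, card_singleton] at h5
    omega
  have h2 : Fintype.card (Fin r → V) = Fintype.card V ^ r := by simp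
  rw [h2] at h1
  rw [Fintype.card_fin]
  exact_mod_cast h1

theorem homDensity_empty {V : Type} [Fintype V] [DecidableEq V] [Nonempty V]
    (H : Finset (Finset V)) : homDensity (∅ : Finset (Finset W)) H = 1 := by
  unfold homDensity homCount
  have h : (univ.filter fun φ : W → V => ∀ e ∈ (∅ : Finset (Finset W)), e.image φ ∈ H) = univ := by
    rw [filter_eq_self]
    intro φ _ e he
    exact absurd he (notMem_empty e)
  rw [h, card_univ, Fintype.card_fun]
  have : (0 : ℝ) < Fintype.card V := by exact_mod_cast Fintype.card_pos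
  push_cast
  exact div_self (by positivity)

theorem exponent_le {r : ℕ} (hr : 2 ≤ r) (F : Finset (Finset W)) (hF : ∀ e ∈ F, e.card = r)
    (c : W → Fin r) (hc : ∀ e ∈ F, ∀ k, (e.filter fun w => c w = k).card = 1) (Δ : ℕ)
    (hΔ : ∀ w, (F.filter fun e => w ∈ e).card ≤ Δ) {n : ℕ} (H : Finset (Finset (Fin n)))
    (hH : ∀ e ∈ H, e.card = r) (s : ℝ)
    (h1 : homDensity F H = homDensity (singleEdge r) H ^ s) (h2 : 0 < homDensity F H) :
    s ≤ (((1 + r * (2 * (r * Δ) + 1) ^ r) * F.card : ℕ) : ℝ) := by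
  by_cases hs0 : s ≤ 0
  · exact hs0.trans (Nat.cast_nonneg _)
  push Not at hs0
  rcases Nat.eq_zero_or_pos n with rfl | hn
  · exfalso
    have h3 : homDensity (singleEdge r) H = 0 := by
      unfold homDensity
      rw [Fintype.card_fin, Fintype.card_fin, Nat.cast_zero, zero_pow (by omega), div_zero]
    rw [h1, h3, Real.zero_rpow hs0.ne'] at h2
    exact lt_irrefl _ h2
  have : Nonempty (Fin n) := ⟨⟨0, hn⟩⟩
  set p := homDensity (singleEdge r) H with hp
  have hp1 : p < 1 := singleEdge_lt_one hr H hH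
  have hp0 : 0 ≤ p := by
    rw [hp]
    unfold homDensity
    positivity
  have hppos : 0 < p := by
    rcases hp0.lt_or_eq with h | h
    · exact h
    · exfalso
      rw [h1, ← h, Real.zero_rpow hs0.ne'] at h2
      exact lt_irrefl _ h2
  have hlog : Real.log p < 0 := Real.log_neg hppos hp1
  rcases F.eq_empty_or_nonempty with rfl | hne
  · exfalso
    rw [homDensity_empty] at h1
    have h3 := Real.rpow_lt_one hppos.le hp1 hs0
    rw [← h1] at h3
    exact lt_irrefl _ h3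
  have hl1 : Real.log (1 / p) = -Real.log p := by
    rw [one_div, Real.log_inv]
  have hI := inv_all F H c hc (fun k => (2 * (r * Δ : ℕ) + 1 : ℝ) ^ k) (fun k => by positivity)
    (by rw [hl1]; linarith) hppos (fun v => beta_ineq F hF c Δ hΔ v) (verts F).card (verts F) rfl
    (Subset.refl _) (fun v _ u hu _ => hu)
  obtain ⟨-, h3⟩ := density_of_inv F H c _ _ hI
  rw [← hp, hl1, h1, Real.log_rpow hppos] at h3
  have h4 : s ≤ 1 + ∑ v ∈ verts F, (2 * (r * Δ : ℕ) + 1 : ℝ) ^ (c v : ℕ) := by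
    by_contra hcon
    push Not at hcon
    nlinarith
  refine h4.trans ?_
  have hb : (1 : ℝ) ≤ 2 * (r * Δ : ℕ) + 1 := by
    have : (0 : ℝ) ≤ ((r * Δ : ℕ) : ℝ) := Nat.cast_nonneg _
    linarith
  have h5 : ∑ v ∈ verts F, (2 * (r * Δ : ℕ) + 1 : ℝ) ^ (c v : ℕ) ≤
      ((verts F).card : ℝ) * (2 * (r * Δ : ℕ) + 1 : ℝ) ^ r := by
    rw [← nsmul_eq_mul, ← sum_const]
    apply sum_le_sum
    intro v _
    exact pow_le_pow_right₀ hb (c v).isLt.le
  have h6 : ((verts F).card : ℝ) ≤ (F.card : ℝ) * r := by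
    have : (verts F).card ≤ F.card * r := card_biUnion_le_card_mul _ _ _ fun e he => (hF e he).le
    exact_mod_cast this
  have h7 : (1 : ℝ) ≤ F.card := by exact_mod_cast hne.card_pos
  have h8 : (0 : ℝ) ≤ (2 * (r * Δ : ℕ) + 1 : ℝ) ^ r := by positivity
  push_cast at h5 h8 ⊢
  nlinarith

theorem sidorenkoExponent_le {r : ℕ} (hr : 2 ≤ r) (F : Finset (Finset W))
    (hF : ∀ e ∈ F, e.card = r)
    (hc : ∃ c : W → Fin r, ∀ e ∈ F, ∀ k, (e.filter fun w => c w = k).card = 1) (Δ : ℕ)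
    (hΔ : ∀ w, (F.filter fun e => w ∈ e).card ≤ Δ) :
    sidorenkoExponent r F ≤ (((1 + r * (2 * (r * Δ) + 1) ^ r) * F.card : ℕ) : EReal) := by
  obtain ⟨c, hc⟩ := hc
  apply sSup_le
  rintro x ⟨s, rfl, -, n, H, hH, h1, h2⟩
  have h3 := exponent_le hr F hF c hc Δ hΔ H hH s h1 h2
  have h4 : ((((1 + r * (2 * (r * Δ) + 1) ^ r) * F.card : ℕ) : ℝ) : EReal) =
      (((1 + r * (2 * (r * Δ) + 1) ^ r) * F.card : ℕ) : EReal) := EReal.coe_natCast
  rw [← h4]
  exact EReal.coe_le_coe_iff.2 h3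

end Pool.Agent.R81.Sid
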