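import Pool.Agent.R81.Sid.Var

set_option autoImplicit false

/-!
# Homomorphisms of a 3-partite 3-graph: an exponent which is linear in the number of edges up to the
sum of the products of the two neighbourhood sizes over the vertices of one class
-/

namespace Pool.Agent.R81.Sid

open Finset

section one

variable {W : Type} [Fintype W] [DecidableEq W]

/-- The number of vertices of the class `k` which are in a common edge of `F` with `b`. -/
def classDeg (F : Finset (Finset W)) (c : W → Fin 3) (k : Fin 3) (b : W) : ℕ :=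
  (univ.filter fun u => c u = k ∧ ∃ e ∈ F, u ∈ e ∧ b ∈ e).card

/-- The exponent. -/
def expo (F : Finset (Finset W)) (c : W → Fin 3) : ℕ :=
  10 * F.card + 4 * ∑ b ∈ univ.filter (fun b => c b = 1), classDeg F c 0 b * classDeg F c 2 b

def nk (F : Finset (Finset W)) (c : W → Fin 3) (k : Fin 3) (b : W) : Finset W :=
  univ.filter fun u => c u = k ∧ ∃ e ∈ F, u ∈ e ∧ b ∈ e

def dg (F : Finset (Finset W)) (b : W) : ℕ := (F.filter fun e => b ∈ e).card

variable {F : Finset (Finset W)} {c : W → Fin 3}

theorem sum_dg (hc : ∀ e ∈ F, ∀ k, (e.filter fun w => c w = k).card = 1) (k : Fin 3) :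
    ∑ v ∈ univ.filter (fun v => c v = k), dg F v = F.card := by
  unfold dg
  simp only [card_filter]
  rw [sum_comm, card_eq_sum_ones]
  refine sum_congr rfl fun e he => ?_
  rw [← card_filter, filter_filter, ← hc e he k]
  congr 1
  ext v
  simp [and_comm]

theorem nk_le (hc : ∀ e ∈ F, ∀ k, (e.filter fun w => c w = k).card = 1) (k : Fin 3) (b : W) :
    (nk F c k b).card ≤ dg F b := by
  classical
  unfold nk dg
  have h : ∀ u ∈ univ.filter (fun u => c u = k ∧ ∃ e ∈ F, u ∈ e ∧ b ∈ e),
      ∃ e, e ∈ F ∧ u ∈ e ∧ b ∈ e := by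
    intro u hu
    rw [mem_filter] at hu
    obtain ⟨-, -, e, h1, h2, h3⟩ := hu
    exact ⟨e, h1, h2, h3⟩
  choose! g hg using h
  refine card_le_card_of_injOn g ?_ ?_
  · intro u hu
    obtain ⟨h1, h2, h3⟩ := hg u hu
    exact mem_coe.2 (mem_filter.2 ⟨h1, h3⟩)
  · intro u hu u' hu' huu
    obtain ⟨h1, h2, h3⟩ := hg u hu
    obtain ⟨h1', h2', h3'⟩ := hg u' hu'
    obtain ⟨x, hx⟩ := card_eq_one.1 (hc (g u) h1 k)
    have hcu : c u = k := (mem_filter.1 (mem_coe.1 hu)).2.1
    have hcu' : c u' = k := (mem_filter.1 (mem_coe.1 hu')).2.1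
    have m1 : u ∈ (g u).filter fun w => c w = k := mem_filter.2 ⟨h2, hcu⟩
    have m2 : u' ∈ (g u).filter fun w => c w = k := mem_filter.2 ⟨huu ▸ h2', hcu'⟩
    rw [hx, mem_singleton] at m1 m2
    exact m1.trans m2.symm

/-- the losses -/
noncomputable def bt (F : Finset (Finset W)) (c : W → Fin 3) (v : W) : ℝ :=
  if c v = 0 then 1 else if c v = 1 then 1 + 2 * ((nk F c 0 v).card : ℝ) else
    1 + 2 * (((nk F c 0 v).card : ℝ) + ∑ u ∈ nk F c 1 v, (1 + 2 * ((nk F c 0 u).card : ℝ)))

theorem bt_nonneg (v : W) : 0 ≤ bt F c v := by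
  unfold bt
  split_ifs <;> positivity

theorem bt_step (v : W) : 2 * ∑ u ∈ nb F c v, bt F c u + 1 ≤ bt F c v := by
  have h3 : c v = 0 ∨ c v = 1 ∨ c v = 2 := by
    have := (c v).isLt
    rcases hv : c v with ⟨x, hx⟩
    interval_cases x
    · left; rfl
    · right; left; rfl
    · right; right; rfl
  rcases h3 with h | h | h
  · have e : nb F c v = ∅ := by
      unfold nb
      rw [filter_eq_empty_iff]
      rintro u - ⟨h1, -⟩
      rw [h] at h1
      exact absurd h1 (Fin.not_lt_zero _)
    rw [e, sum_empty, bt, if_pos h]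
    norm_num
  · have e : nb F c v = nk F c 0 v := by
      unfold nb nk
      refine filter_congr fun u _ => ?_
      rw [h]
      have : c u < 1 ↔ c u = 0 := by
        generalize c u = x
        revert x
        decide
      rw [this]
    have e2 : ∑ u ∈ nk F c 0 v, bt F c u = ((nk F c 0 v).card : ℝ) := by
      rw [card_eq_sum_ones, Nat.cast_sum]
      refine sum_congr rfl fun u hu => ?_
      rw [bt, if_pos (mem_filter.1 hu).2.1, Nat.cast_one]
    rw [e, e2]
    have : bt F c v = 1 + 2 * ((nk F c 0 v).card : ℝ) := by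
      rw [bt, if_neg (by rw [h]; decide), if_pos h]
    rw [this]
    linarith
  · have e : nb F c v = nk F c 0 v ∪ nk F c 1 v := by
      unfold nb nk
      rw [← filter_or]
      refine filter_congr fun u _ => ?_
      rw [h]
      have : c u < 2 ↔ c u = 0 ∨ c u = 1 := by
        generalize c u = x
        revert x
        decide
      rw [this, or_and_right]
    have hd : Disjoint (nk F c 0 v) (nk F c 1 v) := by
      rw [disjoint_left]
      intro u h1 h2
      have q1 := (mem_filter.1 h1).2.1
      have q2 := (mem_filter.1 h2).2.1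
      rw [q1] at q2
      exact absurd q2 (by decide)
    have e2 : ∑ u ∈ nk F c 0 v, bt F c u = ((nk F c 0 v).card : ℝ) := by
      rw [card_eq_sum_ones, Nat.cast_sum]
      refine sum_congr rfl fun u hu => ?_
      rw [bt, if_pos (mem_filter.1 hu).2.1, Nat.cast_one]
    have e3 : ∑ u ∈ nk F c 1 v, bt F c u =
        ∑ u ∈ nk F c 1 v, (1 + 2 * ((nk F c 0 u).card : ℝ)) := by
      refine sum_congr rfl fun u hu => ?_
      have q := (mem_filter.1 hu).2.1
      rw [bt, if_neg (by rw [q]; decide), if_pos q]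
    rw [e, sum_union hd, e2, e3]
    have : bt F c v = 1 + 2 * (((nk F c 0 v).card : ℝ) +
        ∑ u ∈ nk F c 1 v, (1 + 2 * ((nk F c 0 u).card : ℝ))) := by
      rw [bt, if_neg (by rw [h]; decide), if_neg (by rw [h]; decide)]
    rw [this]
    linarith

theorem double (F : Finset (Finset W)) (c : W → Fin 3) :
    ∑ v ∈ univ.filter (fun v => c v = 2), ∑ u ∈ nk F c 1 v, (nk F c 0 u).card =
      ∑ b ∈ univ.filter (fun b => c b = 1), classDeg F c 0 b * classDeg F c 2 b := by
  have h1 : ∀ v : W, ∑ u ∈ nk F c 1 v, (nk F c 0 u).card =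
      ∑ u ∈ univ.filter (fun b => c b = 1),
        if ∃ e ∈ F, u ∈ e ∧ v ∈ e then (nk F c 0 u).card else 0 := by
    intro v
    rw [← sum_filter, filter_filter]
    rfl
  simp only [h1]
  rw [sum_comm]
  refine sum_congr rfl fun u _ => ?_
  rw [← sum_filter, sum_const, smul_eq_mul, filter_filter, mul_comm]
  congr 1
  unfold classDeg
  congr 1
  ext v
  simp only [mem_filter, mem_univ, true_and]
  constructor
  · rintro ⟨q, e, he, h2, h3⟩
    exact ⟨q, e, he, h3, h2⟩
  · rintro ⟨q, e, he, h2, h3⟩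
    exact ⟨q, e, he, h3, h2⟩

theorem total_le (hne : F.Nonempty)
    (hc : ∀ e ∈ F, ∀ k, (e.filter fun w => c w = k).card = 1) :
    1 + ∑ v ∈ verts F, bt F c v ≤ (expo F c : ℝ) := by
  classical
  -- the three classes
  have hcl : ∀ v : W, c v = 0 ∨ c v = 1 ∨ c v = 2 := by
    intro v
    generalize c v = x
    revert x
    decide
  have hver : ∀ v ∈ verts F, 1 ≤ dg F v := by
    intro v hv
    obtain ⟨e, he, hve⟩ := mem_biUnion.1 hv
    exact card_pos.2 ⟨e, mem_filter.2 ⟨he, hve⟩⟩
  -- a bound in natural numbers for every vertex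
  have hb : ∀ v ∈ verts F, bt F c v ≤
      ((if c v = 0 then dg F v else 0) + (if c v = 1 then 3 * dg F v else 0) +
        (if c v = 2 then 5 * dg F v + 4 * ∑ u ∈ nk F c 1 v, (nk F c 0 u).card else 0) : ℕ) := by
    intro v hv
    have q1 : (1 : ℝ) ≤ dg F v := by exact_mod_cast hver v hv
    have q2 : ((nk F c 0 v).card : ℝ) ≤ dg F v := by exact_mod_cast nk_le hc 0 v
    have q3 : ((nk F c 1 v).card : ℝ) ≤ dg F v := by exact_mod_cast nk_le hc 1 v
    rcases hcl v with h | h | h
    · rw [bt, if_pos h, if_pos h, if_neg (by rw [h]; decide), if_neg (by rw [h]; decide)]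
      push_cast
      linarith
    · rw [bt, if_neg (by rw [h]; decide), if_pos h, if_neg (by rw [h]; decide), if_pos h,
        if_neg (by rw [h]; decide)]
      push_cast
      linarith
    · rw [bt, if_neg (by rw [h]; decide), if_neg (by rw [h]; decide), if_neg (by rw [h]; decide),
        if_neg (by rw [h]; decide), if_pos h]
      rw [sum_add_distrib, sum_const, nsmul_eq_mul, mul_one, ← mul_sum]
      push_cast
      linarith
  have hs : ∑ v ∈ verts F, bt F c v ≤ ((∑ v : W,
      ((if c v = 0 then dg F v else 0) + (if c v = 1 then 3 * dg F v else 0) +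
        (if c v = 2 then 5 * dg F v + 4 * ∑ u ∈ nk F c 1 v, (nk F c 0 u).card else 0)) : ℕ) : ℝ) := by
    refine (sum_le_sum hb).trans ?_
    rw [← Nat.cast_sum]
    exact_mod_cast sum_le_sum_of_subset (subset_univ _)
  have ht : ∑ v : W,
      ((if c v = 0 then dg F v else 0) + (if c v = 1 then 3 * dg F v else 0) +
        (if c v = 2 then 5 * dg F v + 4 * ∑ u ∈ nk F c 1 v, (nk F c 0 u).card else 0)) =
      9 * F.card + 4 * ∑ b ∈ univ.filter (fun b => c b = 1), classDeg F c 0 b * classDeg F c 2 b := by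
    rw [sum_add_distrib, sum_add_distrib, ← sum_filter, ← sum_filter, ← sum_filter,
      sum_add_distrib, ← mul_sum, ← mul_sum, ← mul_sum, sum_dg hc, sum_dg hc, sum_dg hc, double]
    ring
  rw [ht] at hs
  have h1 : 1 ≤ F.card := hne.card_pos
  have h2 : (1 : ℝ) ≤ F.card := by exact_mod_cast h1
  unfold expo
  push_cast at hs ⊢
  linarith

end one

end Pool.Agent.R81.Sid
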