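import Mathlib
import Pool.Agent.R81.Sid.Bound

set_option autoImplicit false

/-!
# Sidorenko exponents of tight cycles
-/

namespace Pool.Agent.R81.Sid

open Finset

theorem tight_part {r ℓ : ℕ} (hr : 0 < r) (hℓ : 0 < ℓ) (i : Fin (r * ℓ)) (κ : Fin r) :
    ((tightEdge r ℓ i).filter fun w : Fin (r * ℓ) =>
      (⟨(w : ℕ) % r, Nat.mod_lt _ hr⟩ : Fin r) = κ).card = 1 := by
  have hn : 0 < r * ℓ := Nat.mul_pos hr hℓ
  rw [card_eq_one]
  set k0 := ((κ : ℕ) + (r - (i : ℕ) % r)) % r with hk0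
  have hk0r : k0 < r := Nat.mod_lt _ hr
  have h1 : ((i : ℕ) + k0) % r = κ := by
    rw [hk0, Nat.add_mod, Nat.mod_mod]
    have h2 : (i : ℕ) % r < r := Nat.mod_lt _ hr
    rw [← Nat.add_mod]
    have h3 : ((i : ℕ) + ((κ : ℕ) + (r - (i : ℕ) % r))) % r =
        ((i : ℕ) % r + ((κ : ℕ) + (r - (i : ℕ) % r))) % r := (Nat.mod_add_mod _ _ _).symm
    rw [h3, show (i : ℕ) % r + ((κ : ℕ) + (r - (i : ℕ) % r)) = κ + r by omega, Nat.add_mod_right,
      Nat.mod_eq_of_lt κ.isLt]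
  refine ⟨⟨((i : ℕ) + k0) % (r * ℓ), Nat.mod_lt _ hn⟩, ?_⟩
  ext w
  rw [mem_filter, mem_singleton]
  unfold tightEdge
  rw [mem_filter]
  constructor
  · rintro ⟨⟨-, k, hk, hw⟩, hκ⟩
    rw [mem_range] at hk
    have h2 : (w : ℕ) % r = κ := by
      have := congrArg Fin.val hκ
      exact this
    rw [hw, Nat.mod_mul_right_mod] at h2
    have h3 : (i : ℕ) + k ≡ (i : ℕ) + k0 [MOD r] := by
      unfold Nat.ModEq
      rw [h1, h2]
    have h4 : k ≡ k0 [MOD r] := Nat.ModEq.add_left_cancel' _ h3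
    unfold Nat.ModEq at h4
    rw [Nat.mod_eq_of_lt hk, Nat.mod_eq_of_lt hk0r] at h4
    apply Fin.ext
    rw [hw, h4]
  · rintro rfl
    refine ⟨⟨mem_univ _, k0, mem_range.2 hk0r, rfl⟩, ?_⟩
    apply Fin.ext
    show ((i : ℕ) + k0) % (r * ℓ) % r = κ
    rw [Nat.mod_mul_right_mod, h1]

theorem tight_card {r ℓ : ℕ} (hr : 0 < r) (hℓ : 0 < ℓ) (i : Fin (r * ℓ)) :
    (tightEdge r ℓ i).card = r := by
  have h := card_eq_sum_card_fiberwise (s := tightEdge r ℓ i) (t := (univ : Finset (Fin r)))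
    (f := fun w : Fin (r * ℓ) => (⟨(w : ℕ) % r, Nat.mod_lt _ hr⟩ : Fin r)) (fun _ _ => mem_coe.2 (mem_univ _))
  rw [h]
  simp only [tight_part hr hℓ]
  simp

theorem tight_degree {r ℓ : ℕ} (hℓ : 0 < ℓ) (w : Fin (r * ℓ)) :
    ((tightCycle r ℓ).filter fun e => w ∈ e).card ≤ r := by
  have hn : 0 < r * ℓ := lt_of_le_of_lt (Nat.zero_le _) w.isLt
  have h1 : (tightCycle r ℓ).filter (fun e => w ∈ e) ⊆
      (range r).image fun k => tightEdge r ℓ ⟨((w : ℕ) + (r * ℓ - k)) % (r * ℓ), Nat.mod_lt _ hn⟩ := by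
    intro e he
    rw [mem_filter] at he
    obtain ⟨he, hw⟩ := he
    unfold tightCycle at he
    rw [mem_image] at he
    obtain ⟨i, -, rfl⟩ := he
    unfold tightEdge at hw
    rw [mem_filter] at hw
    obtain ⟨-, k, hk, hw⟩ := hw
    rw [mem_image]
    refine ⟨k, hk, ?_⟩
    congr 1
    apply Fin.ext
    show ((w : ℕ) + (r * ℓ - k)) % (r * ℓ) = i
    rw [mem_range] at hk
    have hk' : k < r * ℓ := lt_of_lt_of_le hk (Nat.le_mul_of_pos_right r hℓ)
    have hi := i.isLt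
    rw [hw]
    rcases Nat.lt_or_ge ((i : ℕ) + k) (r * ℓ) with h | h
    · rw [Nat.mod_eq_of_lt h, show (i : ℕ) + k + (r * ℓ - k) = i + r * ℓ by omega,
        Nat.add_mod_right, Nat.mod_eq_of_lt hi]
    · have h2 : ((i : ℕ) + k) % (r * ℓ) = i + k - r * ℓ := by
        rw [Nat.mod_eq_sub_mod h, Nat.mod_eq_of_lt (by omega)]
      rw [h2, show (i : ℕ) + k - r * ℓ + (r * ℓ - k) = i by omega, Nat.mod_eq_of_lt hi]
  calc _ ≤ _ := card_le_card h1
    _ ≤ (range r).card := card_image_le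
    _ = r := card_range r

theorem tight_main {r ℓ : ℕ} (hr : 2 ≤ r) (hℓ : 0 < ℓ) :
    sidorenkoExponent r (tightCycle r ℓ) ≤
      (((1 + r * (2 * (r * r) + 1) ^ r) * (r * ℓ) : ℕ) : EReal) := by
  have hr0 : 0 < r := by omega
  have h := sidorenkoExponent_le hr (tightCycle r ℓ) (by
      intro e he
      unfold tightCycle at he
      rw [mem_image] at he
      obtain ⟨i, -, rfl⟩ := he
      exact tight_card hr0 hℓ i)
    ⟨fun w : Fin (r * ℓ) => ⟨(w : ℕ) % r, Nat.mod_lt _ hr0⟩, by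
      intro e he k
      unfold tightCycle at he
      rw [mem_image] at he
      obtain ⟨i, -, rfl⟩ := he
      exact tight_part hr0 hℓ i k⟩ r (tight_degree hℓ)
  refine h.trans ?_
  have h2 : (tightCycle r ℓ).card ≤ r * ℓ := by
    unfold tightCycle
    refine card_image_le.trans ?_
    rw [card_univ, Fintype.card_fin]
  have h3 : (1 + r * (2 * (r * r) + 1) ^ r) * (tightCycle r ℓ).card ≤
      (1 + r * (2 * (r * r) + 1) ^ r) * (r * ℓ) := Nat.mul_le_mul_left _ h2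
  exact_mod_cast h3

end Pool.Agent.R81.Sid
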