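import Pool.Agent.R81.Sid.Main
import Pool.Agent.R81.Sid.Bound

set_option autoImplicit false

/-!
# Sidorenko exponents: the entropy argument of `Main` with losses which depend on the vertex

The loss at the vertex `v` is at most `β v * log (1/p)` when `β v ≥ 1 + 2 ∑ β u`, the sum over the
neighbours `u` of `v` in the earlier parts.
-/

namespace Pool.Agent.R81.Sid

open Finset

section mainW

variable {W V : Type} [Fintype W] [DecidableEq W] [Fintype V] [DecidableEq V]

/-- the invariant of the construction -/
def InvW {r : ℕ} (F : Finset (Finset W)) (H : Finset (Finset V)) (c : W → Fin r) (β : W → ℝ) (d : ℝ)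
    (T : Finset W) : Prop :=
  ∃ f : (Fin r ⊕ W → V) → ℝ, (∀ ω, 0 ≤ f ω) ∧ av f = 1 ∧ Dep (univ.disjSum T) f ∧
    (∀ ω, f ω ≠ 0 → ∀ e ∈ F, e.image (tup c T ω) ∈ H) ∧
    ∀ S ⊆ T, ent (univ.disjSum S) f ≤ (1 + ∑ v ∈ S, β v) * d

theorem invW_empty {r : ℕ} [Nonempty V] (F : Finset (Finset W)) (H : Finset (Finset V))
    (c : W → Fin r) (hc : ∀ e ∈ F, ∀ k, (e.filter fun w => c w = k).card = 1) (β : W → ℝ)
    (hp : 0 < homDensity (singleEdge r) H) :
    InvW F H c β (Real.log (1 / homDensity (singleEdge r) H)) ∅ := by
  classical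
  set p := homDensity (singleEdge r) H with hpd
  set f : (Fin r ⊕ W → V) → ℝ := fun ω =>
    (fun x : Fin r → V => if univ.image x ∈ H then 1 / p else 0) (ω ∘ Sum.inl) with hf
  have hav : av f = 1 := by
    refine (av_inl (A := Fin r) (B := W)
      (fun x : Fin r → V => if univ.image x ∈ H then 1 / p else 0)).trans ?_
    have h1 : ∑ x : Fin r → V, (if univ.image x ∈ H then 1 / p else 0) =
        (homCount (singleEdge r) H : ℝ) * (1 / p) := by
      rw [← sum_filter, sum_const, nsmul_eq_mul]
      congr 2
      unfold homCount singleEdge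
      simp
    rw [h1]
    have h2 : (homCount (singleEdge r) H : ℝ) / (Fintype.card V : ℝ) ^ Fintype.card (Fin r) = p := by
      rw [hpd]
      rfl
    rw [mul_div_right_comm, h2]
    field_simp
  have h0 : ∀ ω, 0 ≤ f ω := by
    intro ω
    simp only [hf]
    split_ifs
    · positivity
    · exact le_rfl
  have hdep : Dep (univ.disjSum ∅) f := by
    intro ω ω' h
    have : ω ∘ Sum.inl = ω' ∘ Sum.inl := by
      funext k
      exact h (Sum.inl k) (by simp)
    simp only [hf, this]
  refine ⟨f, h0, hav, hdep, ?_, ?_⟩
  · intro ω hω e he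
    have h1 : e.image (tup c ∅ ω) = univ.image (ω ∘ Sum.inl) := by
      ext x
      simp only [mem_image, mem_univ, true_and, Function.comp_apply, tup, notMem_empty, if_false]
      constructor
      · rintro ⟨u, -, rfl⟩
        exact ⟨c u, rfl⟩
      · rintro ⟨k, rfl⟩
        obtain ⟨u, hu⟩ := card_eq_one.1 (hc e he k)
        have : u ∈ e.filter fun w => c w = k := by rw [hu]; exact mem_singleton_self u
        rw [mem_filter] at this
        exact ⟨u, this.1, by rw [this.2]⟩
    rw [h1]
    by_contra hcon
    apply hω
    simp only [hf]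
    rw [if_neg hcon]
  · intro S hS
    rw [subset_empty] at hS
    subst hS
    unfold ent
    rw [cond_self hdep]
    have h1 : (fun ω => f ω * Real.log (f ω)) = fun ω => Real.log (1 / p) * f ω := by
      funext ω
      simp only [hf]
      split_ifs
      · ring
      · simp
    rw [h1, av_mul_left, hav]
    simp

theorem invW_step {r : ℕ} [Nonempty V] (F : Finset (Finset W)) (H : Finset (Finset V))
    (c : W → Fin r) (hc : ∀ e ∈ F, ∀ k, (e.filter fun w => c w = k).card = 1) (β : W → ℝ)
    (hβ : ∀ k, 0 ≤ β k) (d : ℝ) (hd : 0 ≤ d) (T : Finset W) (v : W) (hv : v ∉ T)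
    (h1 : ∀ w ∈ T, c w ≤ c v) (h2 : ∀ u ∈ verts F, c u < c v → u ∈ T)
    (h3 : 2 * ∑ u ∈ nb F c v, β u + 1 ≤ β v) (hI : InvW F H c β d T) :
    InvW F H c β d (insert v T) := by
  classical
  obtain ⟨f, f0, f1, f2, f3, f4⟩ := hI
  have hnT : nb F c v ⊆ T := by
    intro u hu
    unfold nb at hu
    rw [mem_filter] at hu
    obtain ⟨-, hu1, e, he, hue, -⟩ := hu
    exact h2 u (mem_biUnion.2 ⟨e, he, hue⟩) hu1
  have hvn : v ∉ nb F c v := fun h => hv (hnT h)
  have ha : (Sum.inl (c v) : Fin r ⊕ W) ∉ par F c v := by
    unfold par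
    rw [inl_mem_disjSum]
    simp
  have hi : (Sum.inr v : Fin r ⊕ W) ∉ par F c v := by
    unfold par
    rw [inr_mem_disjSum]
    exact hvn
  have hai : (Sum.inl (c v) : Fin r ⊕ W) ≠ Sum.inr v := by simp
  have hfe : Dep (univ.erase (Sum.inr v)) f := by
    apply f2.mono
    intro j hj
    rw [mem_erase]
    refine ⟨?_, mem_univ _⟩
    rintro rfl
    rw [inr_mem_disjSum] at hj
    exact hv hj
  have hPT : par F c v ⊆ univ.disjSum T := by
    intro j hj
    unfold par at hj
    rcases j with k | u
    · simp
    · rw [inr_mem_disjSum] at hj ⊢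
      exact hnT hj
  refine ⟨copy (par F c v) (Sum.inl (c v)) (Sum.inr v) f, copy_nonneg f0, ?_, ?_, ?_, ?_⟩
  · rw [av_copy f0 hfe hai ha hi, f1]
  · have h5 := copy_dep f2 ha hi hPT
    refine h5.mono ?_
    intro j hj
    rw [mem_insert] at hj
    rcases hj with rfl | hj
    · rw [inr_mem_disjSum]
      exact mem_insert_self _ _
    · rcases j with k | u
      · simp
      · rw [inr_mem_disjSum] at hj ⊢
        exact mem_insert_of_mem hj
  · intro ω hω e he
    obtain ⟨g1, η, g2, g3, g4⟩ := copy_supp ha hi hω
    by_cases hve : v ∈ e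
    · have h5 := f3 η g2 e he
      have h6 : e.image (tup c (insert v T) ω) = e.image (tup c T η) := by
        apply image_congr
        intro u hu
        rw [mem_coe] at hu
        unfold tup
        by_cases huv : u = v
        · subst huv
          rw [if_pos (mem_insert_self _ _), if_neg hv, g4]
        · have hcu : c u ≠ c v := by
            intro hcu
            obtain ⟨x, hx⟩ := card_eq_one.1 (hc e he (c v))
            have m1 : u ∈ e.filter fun w => c w = c v := by rw [mem_filter]; exact ⟨hu, hcu⟩
            have m2 : v ∈ e.filter fun w => c w = c v := by rw [mem_filter]; exact ⟨hve, rfl⟩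
            rw [hx, mem_singleton] at m1 m2
            exact huv (m1.trans m2.symm)
          rcases lt_or_gt_of_ne hcu with hlt | hgt
          · have huT : u ∈ T := h2 u (mem_biUnion.2 ⟨e, he, hu⟩) hlt
            rw [if_pos (mem_insert_of_mem huT), if_pos huT]
            refine (g3 _ ?_).symm
            unfold par
            rw [inr_mem_disjSum]
            unfold nb
            rw [mem_filter]
            exact ⟨mem_univ _, hlt, e, he, hu, hve⟩
          · have huT : u ∉ T := fun h => absurd (h1 u h) (not_le.2 hgt)
            have huT' : u ∉ insert v T := by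
              rw [mem_insert]
              rintro (h | h)
              · exact huv h
              · exact huT h
            rw [if_neg huT', if_neg huT]
            refine (g3 _ ?_).symm
            unfold par
            rw [inl_mem_disjSum]
            simp [hgt]
      rw [h6]
      exact h5
    · have h5 := f3 ω g1 e he
      have h6 : e.image (tup c (insert v T) ω) = e.image (tup c T ω) := by
        apply image_congr
        intro u hu
        rw [mem_coe] at hu
        have huv : u ≠ v := fun h => hve (h ▸ hu)
        unfold tup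
        have : u ∈ insert v T ↔ u ∈ T := by
          rw [mem_insert]
          simp [huv]
        simp only [this]
      rw [h6]
      exact h5
  · intro S hS
    by_cases hvS : v ∈ S
    · have hSn : S.erase v ⊆ T := by
        intro u hu
        rw [mem_erase] at hu
        exact (mem_insert.1 (hS hu.2)).resolve_left hu.1
      have m1 : ent (univ.disjSum S) (copy (par F c v) (Sum.inl (c v)) (Sum.inr v) f) ≤
          ent (univ.disjSum (S ∪ nb F c v)) (copy (par F c v) (Sum.inl (c v)) (Sum.inr v) f) := by
        apply ent_mono _ (copy_nonneg f0)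
        intro j hj
        rcases j with k | u
        · simp
        · rw [inr_mem_disjSum] at hj ⊢
          exact mem_union_left _ hj
      have m2 := ent_copy_new (S := univ.disjSum (S ∪ nb F c v)) f0 hfe hai ha hi (by
        rw [inr_mem_disjSum]
        exact mem_union_left _ hvS) (by
        intro j hj
        unfold par at hj
        rcases j with k | u
        · simp
        · rw [inr_mem_disjSum] at hj ⊢
          exact mem_union_right _ hj)
      have m3 : ((univ : Finset (Fin r)).disjSum (S ∪ nb F c v)).erase (Sum.inr v) =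
          univ.disjSum (S.erase v ∪ nb F c v) := by
        ext j
        rcases j with k | u
        · simp
        · simp only [mem_erase, inr_mem_disjSum, mem_union, ne_eq, Sum.inr.injEq]
          constructor
          · rintro ⟨q1, q2 | q2⟩
            · exact Or.inl ⟨q1, q2⟩
            · exact Or.inr q2
          · rintro (⟨q1, q2⟩ | q2)
            · exact ⟨q1, Or.inl q2⟩
            · exact ⟨fun h => hvn (h ▸ q2), Or.inr q2⟩
      have m4 := f4 (S.erase v ∪ nb F c v) (union_subset hSn hnT)
      have m5 : ent (insert (Sum.inl (c v)) (par F c v)) f ≤ (1 + ∑ u ∈ nb F c v, β u) * d := by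
        refine le_trans (ent_mono ?_ f0) (f4 (nb F c v) hnT)
        intro j hj
        rcases j with k | u
        · simp
        · rw [mem_insert] at hj
          rcases hj with hj | hj
          · exact absurd hj (by simp)
          · unfold par at hj
            rw [inr_mem_disjSum] at hj ⊢
            exact hj
      have m6 : 0 ≤ ent (par F c v) f := ent_nonneg _ f0 f1
      have m7 : ∑ u ∈ S.erase v ∪ nb F c v, β u ≤
          ∑ u ∈ S.erase v, β u + ∑ u ∈ nb F c v, β u := by
        rw [← sum_union_inter]
        have : 0 ≤ ∑ u ∈ S.erase v ∩ nb F c v, β u := sum_nonneg fun u _ => hβ _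
        linarith
      have m8 : ∑ u ∈ S, β u = β v + ∑ u ∈ S.erase v, β u :=
        (add_sum_erase S (fun u => β u) hvS).symm
      rw [m3] at m2
      rw [m8]
      calc ent (univ.disjSum S) (copy (par F c v) (Sum.inl (c v)) (Sum.inr v) f)
          ≤ _ := m1
        _ = _ := m2
        _ ≤ (1 + ∑ u ∈ S.erase v ∪ nb F c v, β u) * d +
            ((1 + ∑ u ∈ nb F c v, β u) * d - 0) := by linarith
        _ = (2 + (∑ u ∈ S.erase v ∪ nb F c v, β u) + ∑ u ∈ nb F c v, β u) * d := by ring
        _ ≤ (1 + (β v + ∑ u ∈ S.erase v, β u)) * d := by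
          apply mul_le_mul_of_nonneg_right _ hd
          linarith
    · have hST : S ⊆ T := fun u hu => (mem_insert.1 (hS hu)).resolve_left fun h => hvS (h ▸ hu)
      rw [ent_copy_old f0 hfe hai ha hi (by rw [inr_mem_disjSum]; exact hvS)]
      exact f4 S hST

/-- lower sets of vertices -/
theorem invW_all {r : ℕ} [Nonempty V] (F : Finset (Finset W)) (H : Finset (Finset V))
    (c : W → Fin r) (hc : ∀ e ∈ F, ∀ k, (e.filter fun w => c w = k).card = 1) (β : W → ℝ)
    (hβ : ∀ k, 0 ≤ β k) (hd : 0 ≤ Real.log (1 / homDensity (singleEdge r) H))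
    (hp : 0 < homDensity (singleEdge r) H)
    (h3 : ∀ v, 2 * ∑ u ∈ nb F c v, β u + 1 ≤ β v) (n : ℕ) :
    ∀ T : Finset W, T.card = n → T ⊆ verts F → (∀ v ∈ T, ∀ u ∈ verts F, c u < c v → u ∈ T) →
      InvW F H c β (Real.log (1 / homDensity (singleEdge r) H)) T := by
  classical
  induction n with
  | zero =>
    intro T hT _ _
    rw [card_eq_zero] at hT
    subst hT
    exact invW_empty F H c hc β hp
  | succ n ih =>
    intro T hT hTF hlow
    have hne : T.Nonempty := by
      rw [← card_pos, hT]
      exact Nat.succ_pos n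
    obtain ⟨v, hvT, hmax⟩ := exists_max_image T c hne
    have h4 : insert v (T.erase v) = T := insert_erase hvT
    rw [← h4]
    apply invW_step F H c hc β hβ _ hd _ v (notMem_erase v T) _ _ (h3 v)
    · apply ih
      · rw [card_erase_of_mem hvT, hT]
        rfl
      · exact (erase_subset v T).trans hTF
      · intro w hw u hu huw
        rw [mem_erase] at hw ⊢
        refine ⟨?_, hlow w hw.2 u hu huw⟩
        rintro rfl
        exact absurd (hmax w hw.2) (not_le.2 huw)
    · intro w hw
      exact hmax w (mem_erase.1 hw).2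
    · intro u hu huv
      rw [mem_erase]
      refine ⟨?_, hlow v hvT u hu huv⟩
      rintro rfl
      exact lt_irrefl _ huv

/-- from the entropy to the number of homomorphisms -/
theorem density_of_invW {r : ℕ} [Nonempty V] (F : Finset (Finset W)) (H : Finset (Finset V))
    (c : W → Fin r) (β : W → ℝ) (d : ℝ)
    (h : InvW F H c β d (verts F)) :
    0 < homDensity F H ∧ -Real.log (homDensity F H) ≤ (1 + ∑ v ∈ verts F, β v) * d := by
  classical
  obtain ⟨f, f0, f1, f2, f3, f4⟩ := h
  set q := homDensity F H with hq
  set A : (Fin r ⊕ W → V) → ℝ := fun ω =>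
    (fun φ : W → V => if ∀ e ∈ F, e.image φ ∈ H then (1 : ℝ) else 0) (ω ∘ Sum.inr) with hA
  have hAq : av A = q := by
    refine (av_inr (A := Fin r) (B := W)
      (fun φ : W → V => if ∀ e ∈ F, e.image φ ∈ H then (1 : ℝ) else 0)).trans ?_
    rw [hq]
    unfold homDensity homCount
    congr 1
    rw [← sum_filter, sum_const, nsmul_eq_mul, mul_one]
  have hA0 : ∀ ω, 0 ≤ A ω := by
    intro ω
    simp only [hA]
    split_ifs <;> norm_num
  have hA1 : ∀ ω, f ω ≠ 0 → A ω = 1 := by
    intro ω hω
    simp only [hA]
    rw [if_pos]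
    intro e he
    have h1 := f3 ω hω e he
    have h2 : e.image (tup c (verts F) ω) = e.image (ω ∘ Sum.inr) := by
      apply image_congr
      intro u hu
      rw [mem_coe] at hu
      unfold tup
      have hm : u ∈ verts F := mem_biUnion.2 ⟨e, he, hu⟩
      rw [if_pos hm]
      rfl
    rwa [h2] at h1
  have hqpos : 0 < q := by
    rcases (av_nonneg hA0).lt_or_eq with h1 | h1
    · rwa [hAq] at h1
    · exfalso
      have h2 := av_eq_zero hA0 h1.symm
      have h3 : f = fun _ => 0 := by
        funext ω
        by_contra h4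
        have := hA1 ω h4
        rw [h2 ω] at this
        norm_num at this
      rw [h3, av_const] at f1
      norm_num at f1
  refine ⟨hqpos, ?_⟩
  refine le_trans ?_ (f4 (verts F) (Subset.refl _))
  unfold ent
  rw [cond_self f2]
  have h1 : ∀ ω, (-Real.log q) * f ω + (f ω - (1 / q) * A ω) ≤ f ω * Real.log (f ω) := by
    intro ω
    rcases (f0 ω).lt_or_eq with h2 | h2
    · rw [hA1 ω h2.ne']
      have h3 := Real.one_sub_inv_le_log_of_pos (mul_pos hqpos h2)
      rw [Real.log_mul hqpos.ne' h2.ne'] at h3
      have h4 : 1 - (q * f ω)⁻¹ - Real.log q ≤ Real.log (f ω) := by linarith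
      have h5 := mul_le_mul_of_nonneg_left h4 h2.le
      refine le_trans (le_of_eq ?_) h5
      have := h2.ne'
      field_simp
      ring
    · rw [← h2]
      simp only [mul_zero, zero_sub, zero_add, zero_mul]
      have : 0 ≤ 1 / q * A ω := mul_nonneg (by positivity) (hA0 ω)
      linarith
  have h2 := av_mono h1
  rw [av_add, av_sub, av_mul_left, av_mul_left, f1, hAq] at h2
  have h3 : 1 / q * q = 1 := by field_simp
  rw [h3] at h2
  linarith

end mainW

end Pool.Agent.R81.Sid
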